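import Mathlib

/-!
# Counting connected restrictions of binary matroids

`N_k(M, e) ≤ (2 ^ Λ)^k`, where `Λ` is the smallest possible largest size of a member of a basis of
the cocycle space of the binary matroid `M`.

The restriction `S` is revealed step by step: a state is a pair `(P, Y)`, `P` being the known part
of `S` and `Y` a set of basis cocycles.  Take a basis cocycle whose restriction to `P` is not
spanned by the restrictions of the members of `Y`, reveal its intersection with `S` (at most `2^Λ`
possibilities) and add it to `Y`.  The restrictions to `S` of the members of `Y` stay independent,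
so there are at most `k` steps; when the process stops, `P` is a separator of `M | S`.
-/

namespace Pool.Agent.Results.MP_0dc42e_co.ExpBound

open Set

variable {E : Type}

/-- `M` is a binary matroid: it is represented by vectors over the two-element field. -/
def IsBinary (M : Matroid E) : Prop :=
  ∃ (n : ℕ) (v : E → (Fin n → ZMod 2)), ∀ I ⊆ M.E, (M.Indep I ↔ LinearIndepOn (ZMod 2) v I)

/-- The indicator vector of a set. -/
noncomputable def ind (D : Set E) : E → ZMod 2 := by
  classical exact fun x => if x ∈ D then 1 else 0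

/-- The cocycle space: the span of the indicator vectors of the cocircuits (symmetric differences
of cocircuits correspond to sums of indicator vectors). -/
def cocycleSpace (M : Matroid E) : Submodule (ZMod 2) (E → ZMod 2) :=
  Submodule.span (ZMod 2) {y | ∃ D, M.IsCocircuit D ∧ y = ind D}

/-- The support of a vector. -/
def supp (y : E → ZMod 2) : Set E := {x | y x ≠ 0}

/-- `B` is a basis of the cocycle space all members of which have size at most `L`. -/
def IsShortBasis (M : Matroid E) (L : ℕ) (B : Set (E → ZMod 2)) : Prop :=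
  LinearIndepOn (ZMod 2) id B ∧ Submodule.span (ZMod 2) B = cocycleSpace M ∧
    ∀ y ∈ B, (supp y).ncard ≤ L

/-- `Λ̃(M)`: the minimum over the bases of the cocycle space of the largest size of a member. -/
noncomputable def lam (M : Matroid E) : ℕ := sInf {L | ∃ B, IsShortBasis M L B}

/-- Connected (2-connected) matroids: any two distinct elements lie in a common circuit. -/
def IsConnected (N : Matroid E) : Prop :=
  ∀ x ∈ N.E, ∀ y ∈ N.E, x ≠ y → ∃ C, N.IsCircuit C ∧ x ∈ C ∧ y ∈ C

/-- `N_k(M, e)`: the number of connected restrictions of `M` of size `k` containing `e`. -/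
noncomputable def numConn (M : Matroid E) (e : E) (k : ℕ) : ℕ :=
  {S : Set E | S ⊆ M.E ∧ e ∈ S ∧ S.ncard = k ∧ IsConnected (M.restrict S)}.ncard

theorem z2 (a : ZMod 2) : a = 0 ∨ a = 1 := by
  revert a; decide

/-! ### Circuits and cocircuits of binary matroids -/

section rep

variable {M : Matroid E} {n : ℕ} {v : E → (Fin n → ZMod 2)}

theorem mem_closure_iff_span (hv : ∀ I ⊆ M.E, (M.Indep I ↔ LinearIndepOn (ZMod 2) v I))
    {H : Set E} (hH : H ⊆ M.E) {x : E} (hx : x ∈ M.E) :
    x ∈ M.closure H ↔ v x ∈ Submodule.span (ZMod 2) (v '' H) := by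
  obtain ⟨I, hI⟩ := M.exists_isBasis H hH
  have key : ∀ y ∈ M.E, y ∈ M.closure I ↔ v y ∈ Submodule.span (ZMod 2) (v '' I) := by
    intro y hy
    rw [hI.indep.mem_closure_iff']
    have hI' := (hv I hI.indep.subset_ground).1 hI.indep
    constructor
    · rintro ⟨-, h⟩
      by_contra hns
      have h1 : LinearIndepOn (ZMod 2) v (insert y I) := hI'.insert hns
      have h2 := h ((hv _ (insert_subset hy hI.indep.subset_ground)).2 h1)
      exact hns (Submodule.subset_span (mem_image_of_mem v h2))
    · intro h
      refine ⟨hy, fun h1 => ?_⟩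
      by_contra hyI
      have h2 := (hv _ (insert_subset hy hI.indep.subset_ground)).1 h1
      rw [linearIndepOn_insert hyI] at h2
      exact h2.2 h
  rw [← hI.closure_eq_closure, key x hx]
  have hspan : Submodule.span (ZMod 2) (v '' I) = Submodule.span (ZMod 2) (v '' H) := by
    apply le_antisymm
    · exact Submodule.span_mono (image_mono hI.subset)
    · rw [Submodule.span_le]
      rintro _ ⟨h, hh, rfl⟩
      exact (key h (hH hh)).1 (hI.subset_closure hh)
  rw [hspan]

theorem circuit_sum [Fintype E] (hv : ∀ I ⊆ M.E, (M.Indep I ↔ LinearIndepOn (ZMod 2) v I))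
    {C : Set E} (hC : M.IsCircuit C) : ∑ x, ind C x • v x = 0 := by
  classical
  have h1 : ¬ LinearIndepOn (ZMod 2) v C := by
    rw [← hv C hC.subset_ground]; exact hC.not_indep
  -- extract a relation
  rw [linearIndepOn_iff] at h1
  push Not at h1
  obtain ⟨l, hl, hl0, hlne⟩ := h1
  have hsup : (l.support : Set E) ⊆ C := (Finsupp.mem_supported _ _).1 hl
  have hdep : ¬ M.Indep (l.support : Set E) := by
    rw [hv _ (hsup.trans hC.subset_ground), linearIndepOn_iff]
    push Not
    exact ⟨l, (Finsupp.mem_supported _ _).2 subset_rfl, hl0, hlne⟩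
  have heq : (l.support : Set E) = C := hC.eq_of_not_indep_subset hdep hsup
  have hcoef : ∀ x, l x = ind C x := by
    intro x
    unfold ind
    by_cases hx : x ∈ C
    · rw [if_pos hx]
      rcases z2 (l x) with h | h
      · rw [← heq, Finset.mem_coe, Finsupp.mem_support_iff] at hx
        exact absurd h hx
      · exact h
    · rw [if_neg hx]
      rw [← heq, Finset.mem_coe, Finsupp.notMem_support_iff] at hx
      exact hx
  rw [Finsupp.linearCombination_apply, Finsupp.sum_fintype _ _ (by simp)] at hl0
  rw [← hl0]
  exact Finset.sum_congr rfl (fun x _ => by rw [hcoef])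

theorem cocircuit_functional (hv : ∀ I ⊆ M.E, (M.Indep I ↔ LinearIndepOn (ZMod 2) v I))
    {D : Set E} (hD : M.IsCocircuit D) :
    ∃ φ : (Fin n → ZMod 2) →ₗ[ZMod 2] ZMod 2, ∀ x ∈ M.E, φ (v x) = ind D x := by
  classical
  have hDE : D ⊆ M.E := hD.subset_ground
  have hD' := hD
  rw [Matroid.isCocircuit_iff_minimal_compl_nonspanning] at hD'
  have hns : ¬ M.Spanning (M.E \ D) := hD'.prop
  -- there is an element outside the closure of the complement
  have hex : ∃ d ∈ M.E, d ∉ M.closure (M.E \ D) := by
    by_contra h
    push Not at h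
    apply hns
    rw [Matroid.spanning_iff_ground_subset_closure sdiff_subset]
    exact h
  obtain ⟨d, hdE, hd⟩ := hex
  rw [mem_closure_iff_span hv sdiff_subset hdE] at hd
  obtain ⟨φ, hφd, hφ⟩ := Submodule.exists_le_ker_of_notMem hd
  refine ⟨φ, ?_⟩
  intro x hx
  unfold ind
  by_cases hxD : x ∈ D
  · rw [if_pos hxD]
    have hss : D \ {x} ⊂ D := sdiff_singleton_ssubset.2 hxD
    have hsp : M.Spanning (M.E \ (D \ {x})) := by
      by_contra h
      exact hss.2 (hD'.le_of_le h hss.1)
    have hset : M.E \ (D \ {x}) = insert x (M.E \ D) := by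
      ext y
      simp only [mem_sdiff, mem_singleton_iff, mem_insert_iff]
      constructor
      · rintro ⟨h1, h2⟩
        by_cases hyx : y = x
        · exact Or.inl hyx
        · exact Or.inr ⟨h1, fun h3 => h2 ⟨h3, hyx⟩⟩
      · rintro (h | h)
        · subst h; exact ⟨hx, fun h3 => h3.2 rfl⟩
        · exact ⟨h.1, fun h3 => h.2 h3.1⟩
    rw [hset] at hsp
    have hdc : d ∈ M.closure (insert x (M.E \ D)) := by
      rw [hsp.closure_eq]; exact hdE
    rw [mem_closure_iff_span hv (insert_subset hx sdiff_subset) hdE, image_insert_eq,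
      Submodule.mem_span_insert] at hdc
    obtain ⟨a, z, hz, hdz⟩ := hdc
    rcases z2 (φ (v x)) with h | h
    · exfalso
      apply hφd
      rw [hdz, map_add, map_smul, h, smul_zero, zero_add]
      exact hφ hz
    · exact h
  · rw [if_neg hxD]
    exact hφ (Submodule.subset_span (mem_image_of_mem v ⟨hx, hxD⟩))

end rep

/-- In a binary matroid, a cocycle and a circuit are orthogonal. -/
theorem orth [Fintype E] {M : Matroid E} (hM : IsBinary M) {C : Set E} (hC : M.IsCircuit C)
    {y : E → ZMod 2} (hy : y ∈ cocycleSpace M) : ∑ x, ind C x * y x = 0 := by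
  classical
  obtain ⟨n, v, hv⟩ := hM
  unfold cocycleSpace at hy
  induction hy using Submodule.span_induction with
  | mem y hy =>
    obtain ⟨D, hD, rfl⟩ := hy
    obtain ⟨φ, hφ⟩ := cocircuit_functional hv hD
    have h1 := congrArg φ (circuit_sum hv hC)
    rw [map_sum, map_zero] at h1
    rw [← h1]
    refine Finset.sum_congr rfl (fun x _ => ?_)
    rw [map_smul, smul_eq_mul]
    by_cases hx : x ∈ M.E
    · rw [hφ x hx]
    · have : ind C x = 0 := by
        unfold ind; rw [if_neg]; exact fun h => hx (hC.subset_ground h)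
      rw [this, zero_mul, zero_mul]
  | zero => simp
  | add y z _ _ hy hz => simp only [Pi.add_apply, mul_add, Finset.sum_add_distrib, hy, hz, add_zero]
  | smul a y _ hy =>
    simp only [Pi.smul_apply, smul_eq_mul]
    have : ∀ x, ind C x * (a * y x) = a * (ind C x * y x) := fun x => by ring
    simp only [this, ← Finset.mul_sum, hy, mul_zero]

/-! ### The encoding -/

/-- Restriction of a vector to a set (zero outside). -/
noncomputable def res (P : Set E) : (E → ZMod 2) →ₗ[ZMod 2] (E → ZMod 2) where
  toFun y := fun x => ind P x * y x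
  map_add' y z := by funext x; simp [mul_add]
  map_smul' a y := by funext x; simp; ring

section proc

variable {ι : Type} (b : ι → (E → ZMod 2)) {L : ℕ}

/-- The possible next cocycles. -/
def Next (s : Set E × Set ι) (i : ι) : Prop :=
  res s.1 (b i) ∉ Submodule.span (ZMod 2) ((fun j => res s.1 (b j)) '' s.2)

open Classical in
/-- One step, with the answer given by a function. -/
noncomputable def stp (ans : ι → Set E) (s : Set E × Set ι) : Set E × Set ι :=
  if h : ∃ i, Next b s i then (s.1 ∪ ans h.choose, insert h.choose s.2) else s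

/-- The state after `n` steps when the answers are decoded from a sequence of codes. -/
noncomputable def run (dec : ι → Fin (2 ^ L) → Set E) (e : E) (c : ℕ → Fin (2 ^ L)) :
    ℕ → Set E × Set ι
  | 0 => ({e}, ∅)
  | n + 1 => stp b (fun i => dec i (c n)) (run dec e c n)

theorem run_congr (dec : ι → Fin (2 ^ L) → Set E) (e : E) (c c' : ℕ → Fin (2 ^ L)) (n : ℕ)
    (h : ∀ m < n, c m = c' m) : run b dec e c n = run b dec e c' n := by
  induction n with
  | zero => rfl
  | succ n ih =>
    show stp b _ (run b dec e c n) = stp b _ (run b dec e c' n)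
    rw [ih (fun m hm => h m (by omega)), h n (by omega)]

/-- The true run. -/
noncomputable def tru (S : Set E) (e : E) : ℕ → Set E × Set ι
  | 0 => ({e}, ∅)
  | n + 1 => stp b (fun i => supp (b i) ∩ S) (tru S e n)

theorem exists_codes (dec : ι → Fin (2 ^ L) → Set E)
    (hdec : ∀ i (T : Set E), T ⊆ supp (b i) → ∃ a, dec i a = T) (S : Set E) (e : E) :
    ∃ c : ℕ → Fin (2 ^ L), ∀ n, run b dec e c n = tru b S e n := by
  classical
  have hstep : ∀ s : Set E × Set ι, ∃ a : Fin (2 ^ L),
      stp b (fun i => dec i a) s = stp b (fun i => supp (b i) ∩ S) s := by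
    intro s
    unfold stp
    by_cases h : ∃ i, Next b s i
    · obtain ⟨a, ha⟩ := hdec h.choose (supp (b h.choose) ∩ S) inter_subset_left
      refine ⟨a, ?_⟩
      rw [dif_pos h, dif_pos h]
      show (s.1 ∪ dec h.choose a, _) = (s.1 ∪ (supp (b h.choose) ∩ S), _)
      rw [ha]
    · refine ⟨⟨0, by positivity⟩, ?_⟩
      rw [dif_neg h, dif_neg h]
  choose f hf using hstep
  refine ⟨fun n => f (tru b S e n), ?_⟩
  intro n
  induction n with
  | zero => rfl
  | succ n ih =>
    show stp b _ (run b dec e _ n) = stp b _ (tru b S e n)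
    rw [ih]
    exact hf _

theorem res_res {P S : Set E} (h : P ⊆ S) (y : E → ZMod 2) : res P (res S y) = res P y := by
  classical
  funext x
  show ind P x * (ind S x * y x) = ind P x * y x
  unfold ind
  by_cases hx : x ∈ P
  · rw [if_pos hx, if_pos (h hx)]; ring
  · rw [if_neg hx]; ring

/-- Invariants of the true run. -/
structure Inv (S : Set E) (e : E) (s : Set E × Set ι) : Prop where
  mem : e ∈ s.1
  sub : s.1 ⊆ S
  known : ∀ j ∈ s.2, supp (b j) ∩ S ⊆ s.1
  indep : LinearIndepOn (ZMod 2) (fun j => res S (b j)) s.2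

theorem inv_step {S : Set E} {e : E} {s : Set E × Set ι} (h : Inv b S e s) :
    Inv b S e (stp b (fun i => supp (b i) ∩ S) s) := by
  classical
  unfold stp
  by_cases hn : ∃ i, Next b s i
  · rw [dif_pos hn]
    have hi := hn.choose_spec
    set i := hn.choose
    refine ⟨Or.inl h.mem, union_subset h.sub inter_subset_right, ?_, ?_⟩
    · rintro j (rfl | hj)
      · exact subset_union_right
      · exact (h.known j hj).trans subset_union_left
    · apply h.indep.insert
      intro hmem
      apply hi
      have h1 := Submodule.mem_map_of_mem (f := res s.1) hmem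
      rw [Submodule.map_span, ← image_comp] at h1
      have h2 : (res s.1 ∘ fun j => res S (b j)) = fun j => res s.1 (b j) := by
        funext j
        exact res_res h.sub (b j)
      rw [h2] at h1
      rwa [res_res h.sub] at h1
  · rw [dif_neg hn]; exact h

theorem inv_tru {S : Set E} {e : E} (he : e ∈ S) (n : ℕ) : Inv b S e (tru b S e n) := by
  induction n with
  | zero =>
    refine ⟨rfl, singleton_subset_iff.2 he, fun j hj => absurd hj (notMem_empty _), ?_⟩
    exact linearIndepOn_empty _ _
  | succ n ih => exact inv_step b ih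

theorem card_tru [Finite ι] {S : Set E} {e : E} (n : ℕ) :
    (¬ ∃ i, Next b (tru b S e n) i) ∨ (tru b S e n).2.ncard = n := by
  classical
  induction n with
  | zero => right; exact ncard_empty _
  | succ n ih =>
    rcases ih with h | h
    · left
      have : tru b S e (n + 1) = tru b S e n := by
        show stp b _ _ = _
        unfold stp
        rw [dif_neg h]
      rw [this]; exact h
    · by_cases hn : ∃ i, Next b (tru b S e n) i
      · right
        have h1 : (tru b S e (n + 1)).2 = insert hn.choose (tru b S e n).2 := by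
          show (stp b _ _).2 = _
          unfold stp
          rw [dif_pos hn]
        have h2 : hn.choose ∉ (tru b S e n).2 := by
          intro hmem
          exact hn.choose_spec (Submodule.subset_span ⟨_, hmem, rfl⟩)
        rw [h1, ncard_insert_of_notMem h2 (toFinite _), h]
      · left
        have : tru b S e (n + 1) = tru b S e n := by
          show stp b _ _ = _
          unfold stp
          rw [dif_neg hn]
        rw [this]; exact hn

/-- Independent vectors supported in `S` number at most `|S|`. -/
theorem indep_card [Fintype E] [Finite ι] {S : Set E} {Y : Set ι}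
    (h : LinearIndepOn (ZMod 2) (fun j => res S (b j)) Y) : Y.ncard ≤ S.ncard := by
  classical
  have := Fintype.ofFinite ι
  -- compose with the restriction to the subtype
  let R : (E → ZMod 2) →ₗ[ZMod 2] (S → ZMod 2) := LinearMap.funLeft (ZMod 2) (ZMod 2) Subtype.val
  have h1 : LinearIndependent (ZMod 2) (fun j : Y => R (res S (b j))) := by
    have h2 : LinearIndependent (ZMod 2) (fun j : Y => res S (b j)) := h
    have h3 : Disjoint (Submodule.span (ZMod 2) (range (fun j : Y => res S (b j))))
        (LinearMap.ker R) := by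
      rw [Submodule.disjoint_def]
      intro z hz hzk
      have hz' : ∀ x, x ∉ S → z x = 0 := by
        intro x hx
        have hle : Submodule.span (ZMod 2) (range (fun j : Y => res S (b j))) ≤
            LinearMap.ker (LinearMap.proj x : (E → ZMod 2) →ₗ[ZMod 2] ZMod 2) := by
          rw [Submodule.span_le]
          rintro _ ⟨j, rfl⟩
          show ind S x * _ = 0
          unfold ind; rw [if_neg hx, zero_mul]
        exact hle hz
      funext x
      by_cases hx : x ∈ S
      · exact congrFun (LinearMap.mem_ker.1 hzk) ⟨x, hx⟩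
      · exact hz' x hx
    exact h2.map h3
  have h2 := h1.fintype_card_le_finrank
  rw [Module.finrank_fintype_fun_eq_card] at h2
  rw [← Nat.card_coe_set_eq, ← Nat.card_coe_set_eq, Nat.card_eq_fintype_card,
    Nat.card_eq_fintype_card]
  exact h2

/-- When the process is stuck, `P` is everything. -/
theorem stuck_eq [Fintype E] {M : Matroid E} (hM : IsBinary M) {S : Set E} (hSE : S ⊆ M.E)
    (hS : IsConnected (M.restrict S)) {e : E} {s : Set E × Set ι}
    (hb : ∀ i, b i ∈ cocycleSpace M)
    (hspan : cocycleSpace M ≤ Submodule.span (ZMod 2) (range b))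
    (hinv : Inv b S e s) (hst : ¬ ∃ i, Next b s i) : s.1 = S := by
  classical
  refine subset_antisymm hinv.sub ?_
  by_contra hne
  rw [not_subset] at hne
  obtain ⟨f, hfS, hfP⟩ := hne
  have hef : e ≠ f := by rintro rfl; exact hfP hinv.mem
  obtain ⟨C, hC, heC, hfC⟩ := hS e (hinv.sub hinv.mem) f hfS hef
  rw [Matroid.restrict_isCircuit_iff hSE] at hC
  obtain ⟨hC, hCS⟩ := hC
  -- every cocycle is orthogonal to `C ∩ P`
  have hlin : ∀ y ∈ cocycleSpace M, ∑ x, ind (C ∩ s.1) x * y x = 0 := by
    intro y hy
    have hy' := hspan hy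
    clear hy
    induction hy' using Submodule.span_induction with
    | mem y hy =>
      obtain ⟨i, rfl⟩ := hy
      have h1 : res s.1 (b i) ∈ Submodule.span (ZMod 2) ((fun j => res s.1 (b j)) '' s.2) := by
        by_contra h
        exact hst ⟨i, h⟩
      have h2 : ((fun j => res s.1 (b j)) '' s.2) = (res s.1) '' (b '' s.2) := by
        rw [image_image]
      rw [h2, ← Submodule.map_span] at h1
      obtain ⟨z, hz, hzb⟩ := h1
      have hz1 : z ∈ cocycleSpace M := by
        refine (Submodule.span_le.2 ?_) hz
        rintro _ ⟨j, _, rfl⟩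
        exact hb j
      have hz2 : ∀ x ∈ S, x ∉ s.1 → z x = 0 := by
        intro x hxS hxP
        have hle : Submodule.span (ZMod 2) (b '' s.2) ≤
            LinearMap.ker (LinearMap.proj x : (E → ZMod 2) →ₗ[ZMod 2] ZMod 2) := by
          rw [Submodule.span_le]
          rintro _ ⟨j, hj, rfl⟩
          show b j x = 0
          by_contra h
          exact hxP (hinv.known j hj ⟨h, hxS⟩)
        exact hle hz
      rw [← orth hM hC hz1]
      refine Finset.sum_congr rfl (fun x _ => ?_)
      have h3 : ind s.1 x * z x = ind s.1 x * b i x := congrFun hzb x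
      unfold ind at h3 ⊢
      by_cases hxC : x ∈ C
      · by_cases hxP : x ∈ s.1
        · rw [if_pos hxP] at h3
          rw [if_pos ⟨hxC, hxP⟩, if_pos hxC]
          exact h3.symm
        · rw [if_neg (fun h => hxP h.2), if_pos hxC, hz2 x (hCS hxC) hxP]; ring
      · rw [if_neg (fun h => hxC h.1), if_neg hxC]; ring
    | zero => simp
    | add y z _ _ hy hz =>
      simp only [Pi.add_apply, mul_add, Finset.sum_add_distrib, hy, hz, add_zero]
    | smul a y _ hy =>
      simp only [Pi.smul_apply, smul_eq_mul]
      have : ∀ x, ind (C ∩ s.1) x * (a * y x) = a * (ind (C ∩ s.1) x * y x) := fun x => by ring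
      simp only [this, ← Finset.mul_sum, hy, mul_zero]
  -- `C ∩ P` is independent
  have hss : C ∩ s.1 ⊂ C := ⟨inter_subset_left, fun h => hfP (h hfC).2⟩
  have hI : M.Indep (C ∩ s.1) := hC.ssubset_indep hss
  obtain ⟨D, hD, hDI⟩ := hI.exists_isCocircuit_inter_eq_mem (e := e) ⟨heC, hinv.mem⟩
  have h1 := hlin (ind D) (Submodule.subset_span ⟨D, hD, rfl⟩)
  have h2 : ∑ x, ind (C ∩ s.1) x * ind D x = ∑ x, if x = e then (1 : ZMod 2) else 0 := by
    refine Finset.sum_congr rfl (fun x _ => ?_)
    unfold ind
    by_cases hxe : x = e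
    · subst hxe
      have h3 : x ∈ D ∩ (C ∩ s.1) := by rw [hDI]; rfl
      rw [if_pos h3.2, if_pos h3.1, if_pos rfl, one_mul]
    · rw [if_neg hxe]
      by_cases h3 : x ∈ C ∩ s.1
      · have h4 : x ∉ D := by
          intro h5
          have : x ∈ D ∩ (C ∩ s.1) := ⟨h5, h3⟩
          rw [hDI] at this
          exact hxe this
        rw [if_neg h4, mul_zero]
      · rw [if_neg h3, zero_mul]
  rw [h2] at h1
  simp at h1

theorem tru_eq [Fintype E] [Finite ι] {M : Matroid E} (hM : IsBinary M) {S : Set E}
    (hSE : S ⊆ M.E) (hS : IsConnected (M.restrict S)) {e : E} (he : e ∈ S)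
    (hb : ∀ i, b i ∈ cocycleSpace M)
    (hspan : cocycleSpace M ≤ Submodule.span (ZMod 2) (range b)) {k : ℕ} (hk : S.ncard = k) :
    (tru b S e k).1 = S := by
  apply stuck_eq b hM hSE hS hb hspan (inv_tru b he k)
  rintro ⟨i, hi⟩
  have h1 : ∃ i, Next b (tru b S e k) i := ⟨i, hi⟩
  rcases card_tru b (S := S) (e := e) k with h | h
  · exact h h1
  · have h2 : (tru b S e (k + 1)).2.ncard = k + 1 := by
      classical
      have h3 : (tru b S e (k + 1)).2 = insert h1.choose (tru b S e k).2 := by
        show (stp b _ _).2 = _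
        unfold stp
        rw [dif_pos h1]
      have h4 : h1.choose ∉ (tru b S e k).2 := by
        intro hmem
        exact h1.choose_spec (Submodule.subset_span ⟨_, hmem, rfl⟩)
      rw [h3, ncard_insert_of_notMem h4 (toFinite _), h]
    have h5 := indep_card b (inv_tru b he (k + 1)).indep
    omega

end proc

/-- The bound for a given family of short cocycles spanning the cocycle space. -/
theorem bound [Fintype E] {M : Matroid E} (hM : IsBinary M) {L : ℕ} {B : Set (E → ZMod 2)}
    (hB : IsShortBasis M L B) {e : E} (k : ℕ) :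
    numConn M e k ≤ (2 ^ L) ^ k := by
  classical
  -- decoding
  have hex : ∀ i : B, ∃ d : Fin (2 ^ L) → Set E, ∀ T ⊆ supp i.1, ∃ a, d a = T := by
    intro i
    have h1 : (supp i.1).ncard ≤ L := hB.2.2 i.1 i.2
    have h2 : (𝒫 (supp i.1)).ncard ≤ 2 ^ L := by
      rw [ncard_powerset _ (toFinite _)]
      exact Nat.pow_le_pow_right (by norm_num) h1
    have hfin : (𝒫 (supp i.1)).Finite := toFinite _
    have hcard : hfin.toFinset.card ≤ 2 ^ L := by
      rwa [← ncard_eq_toFinset_card _ hfin]
    let φ := hfin.toFinset.equivFin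
    refine ⟨fun a => if h : a.val < hfin.toFinset.card then (φ.symm ⟨a.val, h⟩).1 else ∅, ?_⟩
    intro T hT
    have hT' : T ∈ hfin.toFinset := by rw [Finite.mem_toFinset]; exact hT
    refine ⟨⟨(φ ⟨T, hT'⟩).val, lt_of_lt_of_le (φ ⟨T, hT'⟩).2 hcard⟩, ?_⟩
    show (if h : (φ ⟨T, hT'⟩).val < hfin.toFinset.card then
      (φ.symm ⟨(φ ⟨T, hT'⟩).val, h⟩).1 else ∅) = T
    rw [dif_pos (φ ⟨T, hT'⟩).2]
    simp
  choose dec hdec using hex
  have hb : ∀ i : B, (i : E → ZMod 2) ∈ cocycleSpace M := by
    intro i
    rw [← hB.2.1]
    exact Submodule.subset_span i.2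
  have hspan : cocycleSpace M ≤ Submodule.span (ZMod 2) (range (fun i : B => (i : E → ZMod 2))) := by
    rw [← hB.2.1, Subtype.range_coe]
  let F : (Fin k → Fin (2 ^ L)) → Set E := fun c =>
    (run (fun i : B => (i : E → ZMod 2)) dec e
      (fun n => if h : n < k then c ⟨n, h⟩ else ⟨0, by positivity⟩) k).1
  have hsub : {S : Set E | S ⊆ M.E ∧ e ∈ S ∧ S.ncard = k ∧ IsConnected (M.restrict S)} ⊆
      range F := by
    rintro S ⟨hSE, he, hk, hconn⟩
    obtain ⟨c, hc⟩ := exists_codes (fun i : B => (i : E → ZMod 2)) dec hdec S e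
    refine ⟨fun m => c m.val, ?_⟩
    have h1 : run (fun i : B => (i : E → ZMod 2)) dec e
        (fun n => if h : n < k then c (⟨n, h⟩ : Fin k).val else ⟨0, by positivity⟩) k =
        run (fun i : B => (i : E → ZMod 2)) dec e c k := by
      apply run_congr
      intro m hm
      show (if h : m < k then c (⟨m, h⟩ : Fin k).val else ⟨0, by positivity⟩) = c m
      rw [dif_pos hm]
    show (run (fun i : B => (i : E → ZMod 2)) dec e
        (fun n => if h : n < k then c (⟨n, h⟩ : Fin k).val else ⟨0, by positivity⟩) k).1 = S
    rw [h1, hc k]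
    exact tru_eq _ hM hSE hconn he hb hspan hk
  unfold numConn
  refine (ncard_le_ncard hsub (toFinite _)).trans ?_
  rw [← image_univ]
  refine (ncard_image_le (toFinite _)).trans ?_
  rw [ncard_univ, Nat.card_eq_fintype_card, Fintype.card_fun, Fintype.card_fin, Fintype.card_fin]

theorem exists_short [Fintype E] (M : Matroid E) : ∃ L B, IsShortBasis M L B := by
  obtain ⟨B, -, hBspan, hBind⟩ := exists_linearIndependent (ZMod 2)
    ((cocycleSpace M : Submodule (ZMod 2) (E → ZMod 2)) : Set (E → ZMod 2))
  refine ⟨Fintype.card E, B, hBind, ?_, ?_⟩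
  · rw [hBspan, Submodule.span_eq]
  · intro y _
    have := ncard_le_ncard (subset_univ (supp y)) (toFinite _)
    rwa [ncard_univ, Nat.card_eq_fintype_card] at this

/-- **Affirmative answer to Q1** with the explicit function `C(L) = 2 ^ L`: for every binary
matroid `M` on a finite set, every element `e` and every `k`, the number of connected restrictions
of `M` of size `k` containing `e` is at most `(2 ^ Λ̃(M)) ^ k`. -/
theorem result : ∀ (E : Type) [Fintype E] (M : Matroid E), IsBinary M → ∀ e ∈ M.E, ∀ k : ℕ,
    numConn M e k ≤ (2 ^ lam M) ^ k := by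
  intro E _ M hM e _ k
  have hne : {L | ∃ B, IsShortBasis M L B}.Nonempty := exists_short M
  obtain ⟨B, hB⟩ := Nat.sInf_mem hne
  exact bound hM hB k

end Pool.Agent.Results.MP_0dc42e_co.ExpBound
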